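import Pool.Agent.J6H49.SY.Defs

/-!
# The values at the gates of circuits that are symmetric under a power of `A₅`
-/

set_option autoImplicit false

open Finset

namespace Pool.Agent.J6H94.SY.Eng

open Pool.Agent.Y600.Circ (Circuit view)
open Pool.Agent.J6H49.SY

theorem eval_eq {B D L : Type} (C : Circuit B D L) (x : B → Bool) (g : C.Gate) :
    C.eval x g = C.fn g ((C.read g).map x) ((C.wires g).map fun e => (e.1, C.eval x e.2)) := by
  rw [Circuit.eval]
  congr 1
  exact Multiset.attach_map_val' (C.wires g) fun e => (e.1, C.eval x e.2)

theorem nsmul_inj {Y : Type} {n : ℕ} (hn : n ≠ 0) {a b : Multiset Y} (h : n • a = n • b) :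
    a = b := by
  classical
  ext y
  have h1 := congrArg (Multiset.count y) h
  rw [Multiset.count_nsmul, Multiset.count_nsmul] at h1
  exact Nat.eq_of_mul_eq_mul_left (Nat.pos_of_ne_zero hn) h1

theorem main : S_ENG := by
  classical
  intro ι _ _ m D L C s R h1 h2 h3 h4
  choose K hK1 hK2 using h1
  have hmain : ∀ (r : ℕ) (g : C.Gate), C.rank g = r → ∀ x y, R (K g) x y →
      C.eval x g = C.eval y g := by
    intro r
    induction r using Nat.strong_induction_on with
    | _ r ih =>
      intro g hr x y hxy
      -- the stabilizer
      let F : Finset (ι → A5) := univ.filter fun γ => ∀ i ∈ K g, γ i = 1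
      have hF : ∀ γ, γ ∈ F ↔ ∀ i ∈ K g, γ i = 1 := fun γ => by simp [F]
      have hF1 : (1 : ι → A5) ∈ F := (hF 1).2 fun i _ => rfl
      have hcard : F.card ≠ 0 := (card_pos.2 ⟨1, hF1⟩).ne'
      have hinv := hK2 g
      rw [eval_eq, eval_eq]
      congr 1
      · cases hread : C.read g with
        | none => rfl
        | some c =>
          rw [Option.map_some, Option.map_some]
          congr 1
          refine h4 (K g) x y c hxy fun γ hγ => ?_
          have h5 := congrArg Prod.fst (hinv γ hγ)
          simp only [view, hread, Option.map_some, Option.some.injEq] at h5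
          have h6 := congrFun h5 fun d => decide (d = c)
          simpa [act] using h6
      · have key : ∀ z : Clause ι m → Bool,
            F.card • ((C.wires g).map fun e => (e.1, C.eval z e.2)) =
              ((C.wires g).map fun e => ∑ γ ∈ F,
                ({(e.1, C.eval (act γ z) e.2)} : Multiset (L × D))).sum := by
          intro z
          refine Eq.trans ?_ (Multiset.sum_map_sum_map (C.wires g) F.val
            (f := fun e γ => ({(e.1, C.eval (act γ z) e.2)} : Multiset (L × D)))).symm
          rw [← sum_const]
          refine sum_congr rfl fun γ hγ => ?_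
          have h5 := congrArg Prod.snd (hinv γ ((hF γ).1 hγ))
          simp only [view] at h5
          have h6 := congrArg (Multiset.map fun e : L × ((Clause ι m → Bool) → D) => (e.1, e.2 z)) h5
          simp only [Multiset.map_map, Function.comp_def, id] at h6
          rw [← h6]
          have h7 := Multiset.sum_map_singleton
            ((C.wires g).map fun e => (e.1, C.eval (act γ z) e.2))
          rw [Multiset.map_map] at h7
          exact h7.symm
        refine nsmul_inj hcard ?_
        rw [key, key]
        congr 1
        refine Multiset.map_congr rfl fun e he => ?_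
        obtain ⟨w, hw, hR⟩ := h3 (K g) (K e.2) x y (hK1 g) (hK1 e.2) hxy
        have h5 : ∀ γ, C.eval (act γ x) e.2 = C.eval (act (w * γ) y) e.2 := fun γ => by
          rw [act_mul]
          exact ih _ (hr ▸ C.rank_lt g e he) e.2 rfl _ _ (h2 _ _ _ _ hR)
        rw [sum_congr rfl fun γ _ => by rw [h5 γ]]
        refine sum_nbij' (fun γ => w * γ) (fun γ => w⁻¹ * γ) ?_ ?_ ?_ ?_ ?_
        · intro γ hγ
          refine (hF _).2 fun i hi => ?_
          rw [Pi.mul_apply, hw i hi, (hF γ).1 hγ i hi, one_mul]
        · intro γ hγ
          refine (hF _).2 fun i hi => ?_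
          rw [Pi.mul_apply, Pi.inv_apply, hw i hi, (hF γ).1 hγ i hi, inv_one, one_mul]
        · exact fun γ _ => inv_mul_cancel_left _ _
        · exact fun γ _ => mul_inv_cancel_left _ _
        · exact fun γ _ => rfl
  exact fun g => ⟨K g, hK1 g, fun x y h => hmain _ g rfl x y h⟩

end Pool.Agent.J6H94.SY.Eng
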